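import Pool.Agent.H.MP_2712b7_lc.A

set_option autoImplicit false

open Pool.Agent.H.MP_2712b7_lc

namespace Pool.Agent.Results.MP_10964f_lc.No

theorem result (h : dd.IsSingular) : ¬ Pol dd :=
  neg (not_not.1 fun k => h.cof_ord_lt.not_ge (rg k))

end Pool.Agent.Results.MP_10964f_lc.No
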